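import Pool.Agent.H25.DP.Targets2

/-!
# (TA1) the identity behind the Tauberian theorem, with the Fejér kernel
-/

set_option autoImplicit false

open Complex MeasureTheory Set Filter Topology

namespace Pool.Agent.H17.DP

open Pool.Agent.H25.DP

/-- the normalised summatory function -/
noncomputable def gg (a : ℕ → ℂ) (u : ℝ) : ℂ :=
  (∑ n ∈ Finset.Icc 1 ⌊Real.exp u⌋₊, a n) * (Real.exp (-u) : ℝ)

lemma norm_sum_Icc_le (a : ℕ → ℂ) (ha : ∀ n, ‖a n‖ ≤ 1) (N : ℕ) :
    ‖∑ n ∈ Finset.Icc 1 N, a n‖ ≤ N := by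
  refine (norm_sum_le_of_le _ fun n _ => ha n).trans ?_
  simp

lemma norm_gg_le (a : ℕ → ℂ) (ha : ∀ n, ‖a n‖ ≤ 1) (u : ℝ) : ‖gg a u‖ ≤ 1 := by
  unfold gg
  rw [norm_mul, Complex.norm_real, Real.norm_of_nonneg (Real.exp_pos _).le]
  have h1 := norm_sum_Icc_le a ha ⌊Real.exp u⌋₊
  have h2 : (⌊Real.exp u⌋₊ : ℝ) ≤ Real.exp u := Nat.floor_le (Real.exp_pos _).le
  calc _ ≤ Real.exp u * Real.exp (-u) := by gcongr; linarith
    _ = 1 := by rw [← Real.exp_add]; simp

lemma measurable_gg (a : ℕ → ℂ) : Measurable (gg a) := by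
  unfold gg
  refine Measurable.mul ?_ (by fun_prop)
  exact (measurable_from_nat (f := fun N : ℕ => ∑ n ∈ Finset.Icc 1 N, a n)).comp
    (Nat.measurable_floor.comp Real.measurable_exp)

lemma laplace (a : ℕ → ℂ) (ha : ∀ n, ‖a n‖ ≤ 1) (ε t : ℝ) (hε : 0 < ε) :
    ∫ u in Ioi (0 : ℝ), gg a u * cexp (-((ε + t * I) * u)) =
      LSeries a (1 + (ε + t * I)) / (1 + (ε + t * I)) := by
  set s : ℂ := 1 + (ε + t * I) with hs
  have hre : (1 : ℝ) < s.re := by simp [hs, hε]
  have hs0 : s ≠ 0 := by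
    intro h
    rw [h] at hre
    norm_num at hre
  have hO : (fun n : ℕ ↦ ∑ k ∈ Finset.Icc 1 n, ‖a k‖) =O[atTop] fun n : ℕ ↦ (n : ℝ) ^ (1 : ℝ) := by
    refine Asymptotics.IsBigO.of_bound 1 (Eventually.of_forall fun n => ?_)
    rw [Real.rpow_one, one_mul, Real.norm_of_nonneg (Finset.sum_nonneg fun _ _ => norm_nonneg _),
      Real.norm_of_nonneg (Nat.cast_nonneg n)]
    calc ∑ k ∈ Finset.Icc 1 n, ‖a k‖ ≤ ∑ k ∈ Finset.Icc 1 n, (1 : ℝ) :=
          Finset.sum_le_sum fun k _ => ha k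
      _ = n := by simp
  have h1 := LSeries_eq_mul_integral' a (r := 1) zero_le_one hre hO
  rw [h1, mul_div_cancel_left₀ _ hs0]
  have h2 := integral_image_eq_integral_abs_deriv_smul (s := Ioi (0 : ℝ)) (f := Real.exp)
    (f' := Real.exp) measurableSet_Ioi (fun x _ => (Real.hasDerivAt_exp x).hasDerivWithinAt)
    Real.exp_injective.injOn
    (fun x : ℝ => (∑ k ∈ Finset.Icc 1 ⌊x⌋₊, a k) * (x : ℂ) ^ (-(s + 1)))
  rw [Real.image_exp_Ioi, Real.exp_zero] at h2
  rw [h2]
  refine setIntegral_congr_fun measurableSet_Ioi fun u _ => ?_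
  rw [abs_of_pos (Real.exp_pos u), Complex.real_smul, gg]
  have h3 : ((Real.exp u : ℝ) : ℂ) ^ (-(s + 1)) = cexp (-(s + 1) * u) := by
    rw [Complex.cpow_def_of_ne_zero (by exact_mod_cast (Real.exp_pos u).ne'),
      ← Complex.ofReal_log (Real.exp_pos u).le, Real.log_exp, mul_comm]
  have h4 : ((Real.exp (-u) : ℝ) : ℂ) * cexp (-((ε + t * I) * u)) =
      ((Real.exp u : ℝ) : ℂ) * cexp (-(s + 1) * u) := by
    rw [Complex.ofReal_exp, Complex.ofReal_exp, ← Complex.exp_add, ← Complex.exp_add]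
    congr 1
    rw [hs]
    push_cast
    ring
  rw [h3, mul_assoc, h4]
  ring

lemma hasDerivAt_F (lam x : ℝ) (hl : lam ≠ 0) (hx : x ≠ 0) (c : ℂ) (t : ℝ) :
    HasDerivAt (fun t : ℝ => (1 + c * t / lam) * cexp (t * x * I) / (x * I) -
      c * cexp (t * x * I) / (lam * (x * I) ^ 2)) ((1 + c * t / lam) * cexp (t * x * I)) t := by
  have hx' : (x : ℂ) ≠ 0 := by exact_mod_cast hx
  have hl' : (lam : ℂ) ≠ 0 := by exact_mod_cast hl
  have h0 : HasDerivAt (fun t : ℝ => (t : ℂ)) 1 t := by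
    simpa using (hasDerivAt_id t).ofReal_comp
  have h1 : HasDerivAt (fun t : ℝ => cexp (t * x * I)) (cexp (t * x * I) * (x * I)) t := by
    have := ((h0.mul_const (x : ℂ)).mul_const I).cexp
    refine this.congr_deriv ?_
    ring
  have h2 : HasDerivAt (fun t : ℝ => 1 + c * (t : ℂ) / lam) (c / lam) t := by
    have := ((h0.const_mul c).div_const (lam : ℂ)).const_add 1
    refine this.congr_deriv ?_
    ring
  have h3 := ((h2.mul h1).div_const ((x : ℂ) * I)).sub
    ((h1.const_mul c).div_const ((lam : ℂ) * (x * I) ^ 2))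
  refine h3.congr_deriv ?_
  field_simp
  ring_nf
  try simp [I_sq]
  try ring

lemma fejer (lam : ℝ) (hl : 0 < lam) (x : ℝ) :
    ∫ t in (-lam)..lam, ((1 - |t| / lam : ℝ) : ℂ) * cexp (t * x * I) =
      ((lam * (Real.sinc (lam * x / 2)) ^ 2 : ℝ) : ℂ) := by
  have hl' : (lam : ℂ) ≠ 0 := by exact_mod_cast hl.ne'
  have hc : Continuous fun t : ℝ => ((1 - |t| / lam : ℝ) : ℂ) * cexp (t * x * I) := by fun_prop
  rw [← intervalIntegral.integral_add_adjacent_intervals (b := 0)
    (hc.intervalIntegrable _ _) (hc.intervalIntegrable _ _)]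
  have e1 : ∫ t in (-lam)..0, ((1 - |t| / lam : ℝ) : ℂ) * cexp (t * x * I) =
      ∫ t in (-lam)..0, (1 + 1 * t / lam) * cexp (t * x * I) := by
    refine intervalIntegral.integral_congr fun t ht => ?_
    rw [uIcc_of_le (by linarith)] at ht
    rw [abs_of_nonpos ht.2]
    push_cast
    ring
  have e2 : ∫ t in (0 : ℝ)..lam, ((1 - |t| / lam : ℝ) : ℂ) * cexp (t * x * I) =
      ∫ t in (0 : ℝ)..lam, (1 + (-1) * t / lam) * cexp (t * x * I) := by
    refine intervalIntegral.integral_congr fun t ht => ?_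
    rw [uIcc_of_le (by linarith)] at ht
    rw [abs_of_nonneg ht.1]
    push_cast
    ring
  rw [e1, e2]
  by_cases hx : x = 0
  · subst hx
    have h0 : ∀ (c : ℂ) (p q : ℝ), ∫ t in p..q, (1 + c * t / lam) * cexp (t * (0 : ℝ) * I) =
        (q - p) + c / lam * ((q ^ 2 - p ^ 2) / 2) := by
      intro c p q
      have h1 : ∀ t : ℝ, HasDerivAt (fun t : ℝ => (t : ℂ) + c / lam * ((t : ℂ) ^ 2 / 2))
          ((1 + c * t / lam) * cexp (t * (0 : ℝ) * I)) t := by
        intro t
        have h0 : HasDerivAt (fun t : ℝ => (t : ℂ)) 1 t := by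
          simpa using (hasDerivAt_id t).ofReal_comp
        have h1 := h0.add (((h0.pow 2).div_const 2).const_mul (c / lam))
        refine h1.congr_deriv ?_
        simp
        ring
      rw [intervalIntegral.integral_eq_sub_of_hasDerivAt (fun t _ => h1 t)
        (Continuous.intervalIntegrable (by fun_prop) _ _)]
      ring
    rw [h0, h0]
    simp
    field_simp
    ring
  · have hx' : (x : ℂ) ≠ 0 := by exact_mod_cast hx
    rw [intervalIntegral.integral_eq_sub_of_hasDerivAt
        (fun t _ => hasDerivAt_F lam x hl.ne' hx 1 t)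
        (Continuous.intervalIntegrable (by fun_prop) _ _),
      intervalIntegral.integral_eq_sub_of_hasDerivAt
        (fun t _ => hasDerivAt_F lam x hl.ne' hx (-1) t)
        (Continuous.intervalIntegrable (by fun_prop) _ _)]
    have hy : lam * x / 2 ≠ 0 := by positivity
    rw [Real.sinc_of_ne_zero hy]
    have hI : (x * I : ℂ) ^ 2 = -(x : ℂ) ^ 2 := by
      rw [mul_pow, I_sq]
      ring
    have hcos : cexp (lam * x * I) + cexp (-(lam * x * I)) = 2 - 4 * Complex.sin (lam * x / 2) ^ 2 := by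
      have h1 := Complex.two_cos (lam * x : ℂ)
      have h2 := Complex.cos_sq' (lam * x / 2 : ℂ)
      have h3 := Complex.cos_two_mul (lam * x / 2 : ℂ)
      have h4 : (2 : ℂ) * (lam * x / 2) = lam * x := by ring
      rw [h4] at h3
      have h5 : -((lam : ℂ) * x * I) = -(lam * x) * I := by ring
      rw [h5, ← h1, h3, h2]
      ring
    have e3 : cexp (((-lam : ℝ) : ℂ) * x * I) = cexp (-(lam * x * I)) := by
      congr 1
      push_cast
      ring
    rw [e3, hI]
    push_cast
    simp only [zero_mul, Complex.exp_zero, mul_zero, zero_div, add_zero]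
    have e4 : (1 + 1 * -(lam : ℂ) / lam) = 0 := by field_simp; ring
    have e5 : (1 + -1 * (lam : ℂ) / lam) = 0 := by field_simp; ring
    rw [e4, e5]
    have e6 : (Complex.sin (lam * x / 2) / (lam * x / 2)) ^ 2 =
        (2 - (cexp (lam * x * I) + cexp (-(lam * x * I)))) / (lam * x) ^ 2 := by
      rw [hcos]
      field_simp
      ring
    rw [e6]
    field_simp
    ring

/-- the integrability of the kernel -/
lemma sinc_sq_le (x : ℝ) : Real.sinc x ^ 2 ≤ 2 * (1 + x ^ 2)⁻¹ := by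
  rw [← div_eq_mul_inv, le_div_iff₀ (by positivity)]
  have h1 : Real.sinc x ^ 2 ≤ 1 := by
    rw [sq_le_one_iff_abs_le_one]
    exact Real.abs_sinc_le_one x
  have h2 : Real.sinc x ^ 2 * x ^ 2 ≤ 1 := by
    by_cases hx : x = 0
    · subst hx
      norm_num
    · rw [← mul_pow, Real.sinc_of_ne_zero hx, div_mul_cancel₀ _ hx]
      exact Real.sin_sq_le_one x
  linarith

lemma integrable_ker (lam v : ℝ) (hl : 0 < lam) :
    Integrable fun u : ℝ => lam * (2 * (1 + (lam * (v - u) / 2) ^ 2)⁻¹) := by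
  have h1 : Integrable fun x : ℝ => (1 + x ^ 2)⁻¹ := integrable_inv_one_add_sq
  have h2 := (h1.comp_mul_left' (R := lam / 2) (by positivity)).comp_sub_left v
  refine ((h2.const_mul 2).const_mul lam).congr (Eventually.of_forall fun u => ?_)
  simp only
  congr 5
  ring

lemma continuous_sinc' : Continuous Real.sinc := Real.continuous_sinc

/-- Fubini -/
lemma fub (a : ℕ → ℂ) (ha : ∀ n, ‖a n‖ ≤ 1) (lam ε v : ℝ) (hl : 0 < lam) (hε : 0 < ε) :
    ∫ u in Ioi (0 : ℝ), gg a u * ((lam * (Real.sinc (lam * (v - u) / 2)) ^ 2 : ℝ) : ℂ) *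
        (Real.exp (-ε * u) : ℝ) =
      ∫ t in Ioc (-lam) lam, ((1 - |t| / lam : ℝ) : ℂ) * cexp (t * v * I) *
        (LSeries a (1 + (ε + t * I)) / (1 + (ε + t * I))) := by
  have hint : Integrable (Function.uncurry fun (u t : ℝ) => gg a u * (Real.exp (-ε * u) : ℝ) *
      (((1 - |t| / lam : ℝ) : ℂ) * cexp (t * (v - u) * I)))
      ((volume.restrict (Ioi (0 : ℝ))).prod (volume.restrict (Ioc (-lam) lam))) := by
    have hb : Integrable (fun p : ℝ × ℝ => Real.exp (-ε * p.1) * (1 : ℝ))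
        ((volume.restrict (Ioi (0 : ℝ))).prod (volume.restrict (Ioc (-lam) lam))) := by
      refine Integrable.mul_prod (f := fun u : ℝ => Real.exp (-ε * u)) (g := fun _ : ℝ => (1 : ℝ))
        ?_ ?_
      · exact exp_neg_integrableOn_Ioi 0 hε
      · exact integrable_const _
    have hm : Measurable (Function.uncurry fun (u t : ℝ) => gg a u * (Real.exp (-ε * u) : ℝ) *
      (((1 - |t| / lam : ℝ) : ℂ) * cexp (t * (v - u) * I))) := by
      refine Measurable.mul (Measurable.mul ((measurable_gg a).comp measurable_fst) ?_) ?_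
      · exact Continuous.measurable (by fun_prop)
      · exact Continuous.measurable (by fun_prop)
    refine Integrable.mono' hb hm.aestronglyMeasurable ?_
    have hae : ∀ᵐ p : ℝ × ℝ ∂((volume.restrict (Ioi (0 : ℝ))).prod (volume.restrict (Ioc (-lam) lam))),
        p.2 ∈ Ioc (-lam) lam := by
      have h1 : ∀ᵐ t : ℝ ∂(volume.restrict (Ioc (-lam) lam)), t ∈ Ioc (-lam) lam :=
        ae_restrict_mem measurableSet_Ioc
      exact Measure.quasiMeasurePreserving_snd.ae h1
    filter_upwards [hae] with p hp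
    simp only [Function.uncurry]
    rw [norm_mul, norm_mul, norm_mul, Complex.norm_real, Complex.norm_real]
    have h2 : ‖cexp (p.2 * (v - p.1) * I)‖ = 1 := by
      have : (p.2 * (v - p.1) * I : ℂ) = ((p.2 * (v - p.1) : ℝ) : ℂ) * I := by push_cast; ring
      rw [this, Complex.norm_exp_ofReal_mul_I]
    have h3 : |p.2| ≤ lam := abs_le.2 ⟨hp.1.le, hp.2⟩
    have h4 : |p.2| / lam ≤ 1 := by rw [div_le_one hl]; exact h3
    have h5 : 0 ≤ |p.2| / lam := by positivity
    rw [h2, mul_one, Real.norm_of_nonneg (Real.exp_pos _).le,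
      Real.norm_of_nonneg (by linarith : (0 : ℝ) ≤ 1 - |p.2| / lam)]
    have h6 := norm_gg_le a ha p.1
    have h7 := Real.exp_pos (-ε * p.1)
    calc ‖gg a p.1‖ * Real.exp (-ε * p.1) * (1 - |p.2| / lam) ≤ 1 * Real.exp (-ε * p.1) * 1 := by
          gcongr
          linarith
      _ = Real.exp (-ε * p.1) * 1 := by ring
  have hsw := integral_integral_swap hint
  have hL : ∀ u : ℝ, gg a u * ((lam * (Real.sinc (lam * (v - u) / 2)) ^ 2 : ℝ) : ℂ) *
        (Real.exp (-ε * u) : ℝ) = ∫ t in Ioc (-lam) lam, gg a u * (Real.exp (-ε * u) : ℝ) *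
      (((1 - |t| / lam : ℝ) : ℂ) * cexp (t * (v - u) * I)) := by
    intro u
    rw [integral_const_mul, ← intervalIntegral.integral_of_le (by linarith)]
    have := fejer lam hl (v - u)
    push_cast at this ⊢
    rw [this]
    ring
  have hR : ∀ t : ℝ, ((1 - |t| / lam : ℝ) : ℂ) * cexp (t * v * I) *
        (LSeries a (1 + (ε + t * I)) / (1 + (ε + t * I))) =
      ∫ u in Ioi (0 : ℝ), gg a u * (Real.exp (-ε * u) : ℝ) *
      (((1 - |t| / lam : ℝ) : ℂ) * cexp (t * (v - u) * I)) := by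
    intro t
    rw [← laplace a ha ε t hε, ← integral_const_mul]
    refine integral_congr_ae (Eventually.of_forall fun u => ?_)
    simp only
    rw [Complex.ofReal_exp]
    have h1 : cexp (t * v * I) * cexp (-((ε + t * I) * u)) =
        cexp ((-ε * u : ℝ) : ℂ) * cexp (t * (v - u) * I) := by
      rw [← Complex.exp_add, ← Complex.exp_add]
      congr 1
      push_cast
      ring
    calc _ = ((1 - |t| / lam : ℝ) : ℂ) * gg a u *
          (cexp (t * v * I) * cexp (-((ε + t * I) * u))) := by ring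
      _ = _ := by rw [h1]; ring
  rw [integral_congr_ae (Eventually.of_forall hL), integral_congr_ae (Eventually.of_forall hR)]
  exact hsw

/-- the limit identity -/
lemma lim_eq (a : ℕ → ℂ) (G : ℂ → ℂ) (ha : ∀ n, ‖a n‖ ≤ 1) (hG : ContinuousOn G {s : ℂ | 1 ≤ s.re})
    (hGa : ∀ s : ℂ, 1 < s.re → G s = LSeries a s) (lam v : ℝ) (hl : 0 < lam) :
    ∫ u in Ioi (0 : ℝ), gg a u * ((lam * (Real.sinc (lam * (v - u) / 2)) ^ 2 : ℝ) : ℂ) =
      ∫ t in Ioc (-lam) lam, ((1 - |t| / lam : ℝ) : ℂ) * cexp (t * v * I) *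
        (G (1 + ((0 : ℝ) + t * I)) / (1 + ((0 : ℝ) + t * I))) := by
  have hε : ∀ n : ℕ, (0 : ℝ) < 1 / ((n : ℝ) + 1) := fun n => by positivity
  have hε1 : ∀ n : ℕ, 1 / ((n : ℝ) + 1) ≤ 1 := fun n => by
    rw [div_le_one (by positivity)]
    linarith [(Nat.cast_nonneg n : (0 : ℝ) ≤ n)]
  have hlim : Tendsto (fun n : ℕ => 1 / ((n : ℝ) + 1)) atTop (𝓝 0) :=
    tendsto_one_div_add_atTop_nhds_zero_nat
  set h : ℝ × ℝ → ℂ := fun p => G (1 + (p.1 + p.2 * I)) / (1 + (p.1 + p.2 * I)) with hh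
  have hcont : ContinuousOn h (Ici (0 : ℝ) ×ˢ univ) := by
    have hmap : ContinuousOn (fun p : ℝ × ℝ => (1 + (p.1 + p.2 * I) : ℂ)) (Ici (0 : ℝ) ×ˢ univ) :=
      Continuous.continuousOn (by fun_prop)
    refine ContinuousOn.div (hG.comp hmap ?_) hmap ?_
    · intro p hp
      have h1 : (0 : ℝ) ≤ p.1 := hp.1
      simp [h1]
    · intro p hp h0
      have h1 : (0 : ℝ) ≤ p.1 := hp.1
      have h2 := congrArg Complex.re h0
      simp at h2
      linarith
  obtain ⟨M, hM⟩ := (isCompact_Icc.prod isCompact_Icc :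
    IsCompact (Icc (0 : ℝ) 1 ×ˢ Icc (-lam) lam)).exists_bound_of_continuousOn
    (hcont.mono (prod_mono (fun x hx => hx.1) (subset_univ _)))
  have key : ∀ n : ℕ, ∫ u in Ioi (0 : ℝ), gg a u *
      ((lam * (Real.sinc (lam * (v - u) / 2)) ^ 2 : ℝ) : ℂ) *
        (Real.exp (-(1 / ((n : ℝ) + 1)) * u) : ℝ) =
      ∫ t in Ioc (-lam) lam, ((1 - |t| / lam : ℝ) : ℂ) * cexp (t * v * I) *
        h (1 / ((n : ℝ) + 1), t) := by
    intro n
    rw [fub a ha lam _ v hl (hε n)]
    refine integral_congr_ae (Eventually.of_forall fun t => ?_)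
    simp only [hh]
    rw [hGa]
    have h1 := hε n
    rw [Complex.add_re, Complex.add_re, Complex.one_re, Complex.ofReal_re, Complex.re_ofReal_mul,
      Complex.I_re]
    linarith
  have hA : Tendsto (fun n : ℕ => ∫ u in Ioi (0 : ℝ), gg a u *
      ((lam * (Real.sinc (lam * (v - u) / 2)) ^ 2 : ℝ) : ℂ) *
        (Real.exp (-(1 / ((n : ℝ) + 1)) * u) : ℝ)) atTop
      (𝓝 (∫ u in Ioi (0 : ℝ), gg a u *
        ((lam * (Real.sinc (lam * (v - u) / 2)) ^ 2 : ℝ) : ℂ))) := by
    refine tendsto_integral_of_dominated_convergence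
      (fun u => lam * (2 * (1 + (lam * (v - u) / 2) ^ 2)⁻¹)) ?_ (integrable_ker lam v hl).restrict
      ?_ ?_
    · intro n
      refine Measurable.aestronglyMeasurable (((measurable_gg a).mul ?_).mul ?_)
      · have := Real.continuous_sinc
        exact Continuous.measurable (by fun_prop)
      · exact Continuous.measurable (by fun_prop)
    · intro n
      filter_upwards [ae_restrict_mem measurableSet_Ioi] with u hu
      have hu0 : (0 : ℝ) < u := hu
      rw [norm_mul, norm_mul, Complex.norm_real, Complex.norm_real,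
        Real.norm_of_nonneg (by positivity : (0 : ℝ) ≤ lam * (Real.sinc (lam * (v - u) / 2)) ^ 2),
        Real.norm_of_nonneg (Real.exp_pos _).le]
      have h1 := norm_gg_le a ha u
      have h2 := sinc_sq_le (lam * (v - u) / 2)
      have h3 : Real.exp (-(1 / ((n : ℝ) + 1)) * u) ≤ 1 := by
        rw [Real.exp_le_one_iff]
        have := hε n
        nlinarith
      calc ‖gg a u‖ * (lam * (Real.sinc (lam * (v - u) / 2)) ^ 2) *
            Real.exp (-(1 / ((n : ℝ) + 1)) * u) ≤
            1 * (lam * (2 * (1 + (lam * (v - u) / 2) ^ 2)⁻¹)) * 1 := by gcongr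
        _ = _ := by ring
    · refine Eventually.of_forall fun u => ?_
      have h1 : Tendsto (fun n : ℕ => Real.exp (-(1 / ((n : ℝ) + 1)) * u)) atTop (𝓝 1) := by
        have h2 : Tendsto (fun n : ℕ => -(1 / ((n : ℝ) + 1)) * u) atTop (𝓝 (-0 * u)) :=
          hlim.neg.mul_const u
        have h3 := (Real.continuous_exp.tendsto _).comp h2
        simpa [Function.comp_def] using h3
      have h4 := (Complex.continuous_ofReal.tendsto _).comp h1
      have h5 := h4.const_mul (gg a u * ((lam * (Real.sinc (lam * (v - u) / 2)) ^ 2 : ℝ) : ℂ))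
      simpa [Function.comp_def] using h5
  have hB : Tendsto (fun n : ℕ => ∫ t in Ioc (-lam) lam, ((1 - |t| / lam : ℝ) : ℂ) *
      cexp (t * v * I) * h (1 / ((n : ℝ) + 1), t)) atTop
      (𝓝 (∫ t in Ioc (-lam) lam, ((1 - |t| / lam : ℝ) : ℂ) * cexp (t * v * I) * h (0, t))) := by
    refine tendsto_integral_of_dominated_convergence (fun _ => M) ?_ (integrable_const _) ?_ ?_
    · intro n
      have hc : Continuous fun t : ℝ => h (1 / ((n : ℝ) + 1), t) := by
        refine hcont.comp_continuous (by fun_prop) fun t => ?_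
        exact ⟨(hε n).le, mem_univ _⟩
      have hc2 : Continuous fun t : ℝ => ((1 - |t| / lam : ℝ) : ℂ) * cexp (t * v * I) := by fun_prop
      exact (hc2.mul hc).aestronglyMeasurable
    · intro n
      filter_upwards [ae_restrict_mem measurableSet_Ioc] with t ht
      have h2 : ‖cexp (t * v * I)‖ = 1 := by
        have : (t * v * I : ℂ) = ((t * v : ℝ) : ℂ) * I := by push_cast; ring
        rw [this, Complex.norm_exp_ofReal_mul_I]
      have h3 : |t| ≤ lam := abs_le.2 ⟨ht.1.le, ht.2⟩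
      have h4 : |t| / lam ≤ 1 := by rw [div_le_one hl]; exact h3
      have h5 : 0 ≤ |t| / lam := by positivity
      rw [norm_mul, norm_mul, h2, mul_one, Complex.norm_real,
        Real.norm_of_nonneg (by linarith : (0 : ℝ) ≤ 1 - |t| / lam)]
      have h6 := hM (1 / ((n : ℝ) + 1), t) ⟨⟨(hε n).le, hε1 n⟩, ⟨ht.1.le, ht.2⟩⟩
      calc (1 - |t| / lam) * ‖h (1 / ((n : ℝ) + 1), t)‖ ≤ 1 * M := by
            gcongr
            linarith
        _ = M := one_mul M
    · refine Eventually.of_forall fun t => ?_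
      refine Tendsto.const_mul _ ?_
      have h1 : ContinuousWithinAt h (Ici (0 : ℝ) ×ˢ univ) (0, t) :=
        hcont (0, t) ⟨le_refl (0 : ℝ), mem_univ _⟩
      refine h1.tendsto.comp ?_
      rw [tendsto_nhdsWithin_iff]
      refine ⟨?_, Eventually.of_forall fun n => ⟨(hε n).le, mem_univ _⟩⟩
      exact hlim.prodMk_nhds tendsto_const_nhds
  have hB' := hB.congr fun n => (key n).symm
  exact tendsto_nhds_unique hA hB'

theorem ta1 : T_TA1 := by
  intro a G ha _ hG hGa lam hl
  have h1 : ∀ v : ℝ, ∫ u in Ioi (0 : ℝ), (∑ n ∈ Finset.Icc 1 ⌊Real.exp u⌋₊, a n) *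
      (Real.exp (-u) * (lam * (Real.sinc (lam * (v - u) / 2)) ^ 2) : ℝ) =
      ∫ t in Ioc (-lam) lam, ((1 - |t| / lam : ℝ) : ℂ) * cexp (t * v * I) *
        (G (1 + ((0 : ℝ) + t * I)) / (1 + ((0 : ℝ) + t * I))) := by
    intro v
    rw [← lim_eq a G ha hG hGa lam v hl]
    refine integral_congr_ae (Eventually.of_forall fun u => ?_)
    simp only [gg]
    push_cast
    ring
  simp_rw [h1]
  have hRL := Real.tendsto_integral_exp_smul_cocompact (fun t : ℝ => (Ioc (-lam) lam).indicator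
    (fun t : ℝ => ((1 - |t| / lam : ℝ) : ℂ) * (G (1 + ((0 : ℝ) + t * I)) /
      (1 + ((0 : ℝ) + t * I)))) t)
  have hw : Tendsto (fun v : ℝ => -v / (2 * Real.pi)) atTop (cocompact ℝ) := by
    have h2 : Tendsto (fun v : ℝ => -v / (2 * Real.pi)) atTop atBot :=
      tendsto_neg_atTop_atBot.atBot_div_const (by positivity)
    exact h2.mono_right atBot_le_cocompact
  refine (hRL.comp hw).congr fun v => ?_
  simp only [Function.comp]
  rw [← integral_indicator measurableSet_Ioc]
  refine integral_congr_ae (Eventually.of_forall fun t => ?_)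
  simp only
  by_cases ht : t ∈ Ioc (-lam) lam
  · rw [indicator_of_mem ht, indicator_of_mem ht, Circle.smul_def, Real.fourierChar_apply,
      smul_eq_mul]
    have h3 : (((2 * Real.pi * -(t * (-v / (2 * Real.pi))) : ℝ)) : ℂ) * I = t * v * I := by
      have : (2 * Real.pi * -(t * (-v / (2 * Real.pi))) : ℝ) = t * v := by
        field_simp
      rw [this]
      push_cast
      ring
    rw [h3]
    ring
  · rw [indicator_of_notMem ht, indicator_of_notMem ht, smul_zero]

end Pool.Agent.H17.DP
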