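import Pool.Agent.H25.DP.Targets2

/-!
# (JL) Lipschitz bound for the oscillatory integral without its main phase
-/

set_option autoImplicit false

open Complex MeasureTheory Set Filter Topology

namespace Pool.Agent.H17.DP.JL

open Pool.Agent.H25 Pool.Agent.H25.DP

/-- the phase without the main part -/
noncomputable def Phi (d η V v : ℝ) : ℝ := d * (v * Real.log (v / V) - v + V) + η * Real.log v

lemma J_eq (d B η H W y V : ℝ) (hV : 0 < V) (hW : 0 ≤ W) (hy : 0 < H + y) :
    cexp ((d * V : ℝ) * I) * DP.IO d B η H W y (d * Real.log V + d + B) =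
      ∫ u in H..(H + W), (om ((u - H) / W) : ℂ) * cexp ((Phi d η V (u + y) : ℝ) * I) := by
  unfold DP.IO
  rw [← intervalIntegral.integral_const_mul]
  refine intervalIntegral.integral_congr fun u hu => ?_
  rw [uIcc_of_le (by linarith)] at hu
  have hv : 0 < u + y := by linarith [hu.1]
  have h1 : cexp ((d * V : ℝ) * I) * ((om ((u - H) / W) : ℂ) *
      cexp ((phs d B η (d * Real.log V + d + B) (u + y) : ℝ) * I)) =
      (om ((u - H) / W) : ℂ) * (cexp ((d * V : ℝ) * I) *
        cexp ((phs d B η (d * Real.log V + d + B) (u + y) : ℝ) * I)) := by ring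
  change cexp ((d * V : ℝ) * I) * ((om ((u - H) / W) : ℂ) *
      cexp ((phs d B η (d * Real.log V + d + B) (u + y) : ℝ) * I)) = _
  have h2 : d * V + phs d B η (d * Real.log V + d + B) (u + y) = Phi d η V (u + y) := by
    unfold phs Phi
    rw [Real.log_div hv.ne' hV.ne']
    ring
  rw [h1, ← Complex.exp_add, ← add_mul, ← Complex.ofReal_add, h2]

section core

variable (E E' E'' : ℝ → ℝ) (hE : ∀ t, HasDerivAt E (E' t) t) (hE' : ∀ t, HasDerivAt E' (E'' t) t)
  (hEc : Continuous E'') (hEE : ∀ t, t * E t = Real.exp t - 1)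
  (hEb : ∀ R t : ℝ, |t| ≤ R → |E t| ≤ Real.exp R ∧ |E' t| ≤ Real.exp R ∧ |E'' t| ≤ Real.exp R)

/-- `log (v/V)` -/
noncomputable def tt (y V u : ℝ) : ℝ := Real.log ((u + y) / V)

lemma hasDerivAt_tt (y V u : ℝ) (hV : 0 < V) (hu : 0 < u + y) :
    HasDerivAt (tt y V) (1 / (u + y)) u := by
  unfold tt
  have h1 : HasDerivAt (fun u : ℝ => (u + y) / V) (1 / V) u := by
    simpa using ((hasDerivAt_id u).add_const y).div_const V
  have h2 := h1.log (by positivity)
  refine h2.congr_deriv ?_
  field_simp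

include hE in
lemma hasDerivAt_g (y V u : ℝ) (hV : 0 < V) (hu : 0 < u + y) :
    HasDerivAt (fun u => V * E (tt y V u)) (V * E' (tt y V u) / (u + y)) u := by
  have h1 := ((hE (tt y V u)).comp u (hasDerivAt_tt y V u hV hu)).const_mul V
  refine h1.congr_deriv ?_
  ring

include hE' in
lemma hasDerivAt_g' (y V u : ℝ) (hV : 0 < V) (hu : 0 < u + y) :
    HasDerivAt (fun u => V * E' (tt y V u) / (u + y))
      (V * (E'' (tt y V u) - E' (tt y V u)) / (u + y) ^ 2) u := by
  have h1 := ((hE' (tt y V u)).comp u (hasDerivAt_tt y V u hV hu)).const_mul V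
  have h2 : HasDerivAt (fun u : ℝ => u + y) 1 u := (hasDerivAt_id u).add_const y
  have h3 := h1.div h2 hu.ne'
  refine h3.congr_deriv ?_
  simp only [Function.comp]
  field_simp

lemma hasDerivAt_w (H W u : ℝ) :
    HasDerivAt (fun u => om ((u - H) / W)) (om' ((u - H) / W) / W) u := by
  have h1 : HasDerivAt (fun u : ℝ => (u - H) / W) (1 / W) u := by
    simpa using ((hasDerivAt_id u).sub_const H).div_const W
  have h2 := (hasDerivAt_om ((u - H) / W)).comp u h1
  refine h2.congr_deriv ?_
  ring

lemma hasDerivAt_w' (H W u : ℝ) :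
    HasDerivAt (fun u => om' ((u - H) / W) / W) (om'' ((u - H) / W) / W ^ 2) u := by
  have h1 : HasDerivAt (fun u : ℝ => (u - H) / W) (1 / W) u := by
    simpa using ((hasDerivAt_id u).sub_const H).div_const W
  have h2 := ((hasDerivAt_om' ((u - H) / W)).comp u h1).div_const W
  refine h2.congr_deriv ?_
  ring

lemma continuous_om'' : Continuous om'' := by unfold om''; fun_prop

lemma hasDerivAt_Phi (d η y V u : ℝ) (hV : 0 < V) (hu : 0 < u + y) :
    HasDerivAt (fun u => Phi d η V (u + y)) (d * tt y V u + η / (u + y)) u := by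
  have h0 : HasDerivAt (fun u : ℝ => u + y) 1 u := (hasDerivAt_id u).add_const y
  have h1 := hasDerivAt_tt y V u hV hu
  have h2 := (((h0.mul h1).sub h0).add_const V).const_mul d
  have h3 := (h0.log hu.ne').const_mul η
  refine (h2.add h3).congr_deriv ?_
  field_simp
  ring

lemma hasDerivAt_Phi' (d η y V u : ℝ) (hV : 0 < V) (hu : 0 < u + y) :
    HasDerivAt (fun u => d * tt y V u + η / (u + y)) (d / (u + y) - η / (u + y) ^ 2) u := by
  have h0 : HasDerivAt (fun u : ℝ => u + y) 1 u := (hasDerivAt_id u).add_const y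
  have h1 := (hasDerivAt_tt y V u hV hu).const_mul d
  have h2 := (hasDerivAt_const u η).div h0 hu.ne'
  refine (h1.add h2).congr_deriv ?_
  simp
  ring

/-- the weight `g w` -/
noncomputable def K (V y H W u : ℝ) : ℝ := V * E (tt y V u) * om ((u - H) / W)

/-- its derivative -/
noncomputable def K' (V y H W u : ℝ) : ℝ :=
  V * E' (tt y V u) / (u + y) * om ((u - H) / W) + V * E (tt y V u) * (om' ((u - H) / W) / W)

/-- its second derivative -/
noncomputable def K'' (V y H W u : ℝ) : ℝ :=
  V * (E'' (tt y V u) - E' (tt y V u)) / (u + y) ^ 2 * om ((u - H) / W) +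
    V * E' (tt y V u) / (u + y) * (om' ((u - H) / W) / W) +
    (V * E' (tt y V u) / (u + y) * (om' ((u - H) / W) / W) +
      V * E (tt y V u) * (om'' ((u - H) / W) / W ^ 2))

include hE in
lemma hasDerivAt_K (V y H W u : ℝ) (hV : 0 < V) (hu : 0 < u + y) :
    HasDerivAt (K E V y H W) (K' E E' V y H W u) u :=
  (hasDerivAt_g E E' hE y V u hV hu).mul (hasDerivAt_w H W u)

include hE hE' in
lemma hasDerivAt_K' (V y H W u : ℝ) (hV : 0 < V) (hu : 0 < u + y) :
    HasDerivAt (K' E E' V y H W) (K'' E E' E'' V y H W u) u :=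
  ((hasDerivAt_g' E' E'' hE' y V u hV hu).mul (hasDerivAt_w H W u)).add
    ((hasDerivAt_g E E' hE y V u hV hu).mul (hasDerivAt_w' H W u))

include hE hE' hEc hEE hEb in
/-- the core estimate -/
lemma core (hwv : T_WV) (d η T H W y V : ℝ) (hd : 0 < d) (hT : 1 ≤ T) (hH : T ≤ H)
    (hW : T / 4 ≤ W) (hHW : H + W ≤ 2 * T) (hy : |y| ≤ T / 2) (hη : 4 * |η| ≤ d * T)
    (hV1 : T / 8 ≤ V) (hV2 : V ≤ 16 * T) :
    ‖∫ u in H..(H + W), ((u + y - V : ℝ) : ℂ) * ((om ((u - H) / W) : ℂ) *
      cexp ((Phi d η V (u + y) : ℝ) * I))‖ ≤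
      1000000 * (1 + |η|) / d * (8 / Real.sqrt (d / (8 * T))) := by
  have hT0 : 0 < T := by linarith
  have hW0 : 0 < W := by linarith
  have hV0 : 0 < V := by linarith
  obtain ⟨hy1, hy2⟩ := abs_le.1 hy
  have hv : ∀ u ∈ Icc H (H + W), T / 2 ≤ u + y ∧ u + y ≤ 4 * T := fun u hu =>
    ⟨by linarith [hu.1], by linarith [hu.2]⟩
  have hv0 : ∀ u ∈ Icc H (H + W), 0 < u + y := fun u hu => by linarith [(hv u hu).1]
  have hx : ∀ u ∈ Icc H (H + W), 0 ≤ (u - H) / W ∧ (u - H) / W ≤ 1 := fun u hu => by
    constructor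
    · have := hu.1
      exact div_nonneg (by linarith) hW0.le
    · rw [div_le_one hW0]
      linarith [hu.2]
  -- bounds
  have bt : ∀ u ∈ Icc H (H + W), |tt y V u| ≤ Real.log 32 := by
    intro u hu
    obtain ⟨h1, h2⟩ := hv u hu
    unfold tt
    rw [abs_le]
    constructor
    · rw [← Real.log_inv]
      apply Real.log_le_log (by norm_num)
      rw [le_div_iff₀ hV0]
      linarith
    · apply Real.log_le_log (by have := hv0 u hu; positivity)
      rw [div_le_iff₀ hV0]
      linarith
  have be : ∀ u ∈ Icc H (H + W), |E (tt y V u)| ≤ 32 ∧ |E' (tt y V u)| ≤ 32 ∧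
      |E'' (tt y V u)| ≤ 32 := by
    intro u hu
    have := hEb _ _ (bt u hu)
    rwa [Real.exp_log (by norm_num)] at this
  have bg : ∀ u ∈ Icc H (H + W), |V * E (tt y V u)| ≤ 512 * T := by
    intro u hu
    rw [abs_mul, abs_of_pos hV0]
    calc V * |E (tt y V u)| ≤ (16 * T) * 32 := by
          gcongr
          exact (be u hu).1
      _ = 512 * T := by ring
  have bg' : ∀ u ∈ Icc H (H + W), |V * E' (tt y V u) / (u + y)| ≤ 1024 := by
    intro u hu
    have h1 := hv0 u hu
    rw [abs_div, abs_mul, abs_of_pos hV0, abs_of_pos h1, div_le_iff₀ h1]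
    calc V * |E' (tt y V u)| ≤ (16 * T) * 32 := by
          gcongr
          exact (be u hu).2.1
      _ ≤ 1024 * (u + y) := by linarith [(hv u hu).1]
  have bg'' : ∀ u ∈ Icc H (H + W),
      |V * (E'' (tt y V u) - E' (tt y V u)) / (u + y) ^ 2| ≤ 4096 / T := by
    intro u hu
    have h1 := hv0 u hu
    have h2 := (hv u hu).1
    rw [abs_div, abs_mul, abs_of_pos hV0, abs_of_pos (by positivity : (0 : ℝ) < (u + y) ^ 2),
      div_le_div_iff₀ (by positivity) hT0]
    have h3 : |E'' (tt y V u) - E' (tt y V u)| ≤ 64 := by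
      refine (abs_sub _ _).trans ?_
      linarith [(be u hu).2.1, (be u hu).2.2]
    have h4 : (T / 2) ^ 2 ≤ (u + y) ^ 2 := by gcongr
    calc V * |E'' (tt y V u) - E' (tt y V u)| * T ≤ (16 * T) * 64 * T := by gcongr
      _ = 4096 * (T / 2) ^ 2 := by ring
      _ ≤ 4096 * (u + y) ^ 2 := by gcongr
  have bw : ∀ u ∈ Icc H (H + W), |om ((u - H) / W)| ≤ 1 := fun u hu =>
    abs_om_le (hx u hu).1 (hx u hu).2
  have bw' : ∀ u ∈ Icc H (H + W), |om' ((u - H) / W) / W| ≤ 48 / T := by
    intro u hu
    rw [abs_div, abs_of_pos hW0, div_le_div_iff₀ hW0 hT0]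
    calc |om' ((u - H) / W)| * T ≤ 12 * T := by
          gcongr
          exact abs_om'_le (hx u hu).1 (hx u hu).2
      _ ≤ 48 * W := by linarith
  have bw'' : ∀ u ∈ Icc H (H + W), |om'' ((u - H) / W) / W ^ 2| ≤ 1536 / T ^ 2 := by
    intro u hu
    rw [abs_div, abs_of_pos (by positivity : (0 : ℝ) < W ^ 2),
      div_le_div_iff₀ (by positivity) (by positivity)]
    calc |om'' ((u - H) / W)| * T ^ 2 ≤ 96 * T ^ 2 := by
          gcongr
          exact abs_om''_le (hx u hu).1 (hx u hu).2
      _ = 1536 * (T / 4) ^ 2 := by ring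
      _ ≤ 1536 * W ^ 2 := by gcongr
  have bK : ∀ u ∈ Icc H (H + W), |K E V y H W u| ≤ 512 * T := by
    intro u hu
    unfold K
    rw [abs_mul]
    calc |V * E (tt y V u)| * |om ((u - H) / W)| ≤ (512 * T) * 1 := by
          gcongr
          · exact bg u hu
          · exact bw u hu
      _ = 512 * T := by ring
  have bK' : ∀ u ∈ Icc H (H + W), |K' E E' V y H W u| ≤ 25600 := by
    intro u hu
    unfold K'
    refine (abs_add_le _ _).trans ?_
    rw [abs_mul, abs_mul]
    calc |V * E' (tt y V u) / (u + y)| * |om ((u - H) / W)| +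
          |V * E (tt y V u)| * |om' ((u - H) / W) / W| ≤ 1024 * 1 + (512 * T) * (48 / T) := by
          gcongr
          · exact bg' u hu
          · exact bw u hu
          · exact bg u hu
          · exact bw' u hu
      _ = 25600 := by field_simp; norm_num
  have bK'' : ∀ u ∈ Icc H (H + W), |K'' E E' E'' V y H W u| ≤ 888832 / T := by
    intro u hu
    unfold K''
    refine (abs_add_le _ _).trans ?_
    refine (add_le_add (abs_add_le _ _) (abs_add_le _ _)).trans ?_
    rw [abs_mul, abs_mul, abs_mul (V * E (tt y V u))]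
    calc _ ≤ (4096 / T) * 1 + 1024 * (48 / T) + (1024 * (48 / T) + (512 * T) * (1536 / T ^ 2)) := by
          gcongr
          · exact bg'' u hu
          · exact bw u hu
          · exact bg' u hu
          · exact bw' u hu
          · exact bg' u hu
          · exact bw' u hu
          · exact bg u hu
          · exact bw'' u hu
      _ = 888832 / T := by field_simp; norm_num
  -- derivatives
  have dK : ∀ u ∈ Icc H (H + W), HasDerivAt (K E V y H W) (K' E E' V y H W u) u := fun u hu =>
    hasDerivAt_K E E' hE V y H W u hV0 (hv0 u hu)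
  have dK' : ∀ u ∈ Icc H (H + W), HasDerivAt (K' E E' V y H W) (K'' E E' E'' V y H W u) u :=
    fun u hu => hasDerivAt_K' E E' E'' hE hE' V y H W u hV0 (hv0 u hu)
  have cid : ContinuousOn (fun u : ℝ => u + y) (Icc H (H + W)) := by fun_prop
  have ctt : ContinuousOn (tt y V) (Icc H (H + W)) := fun u hu =>
    (hasDerivAt_tt y V u hV0 (hv0 u hu)).continuousAt.continuousWithinAt
  have cK : ContinuousOn (K E V y H W) (Icc H (H + W)) := fun u hu =>
    (dK u hu).continuousAt.continuousWithinAt
  have cK' : ContinuousOn (K' E E' V y H W) (Icc H (H + W)) := fun u hu =>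
    (dK' u hu).continuousAt.continuousWithinAt
  have cE : ContinuousOn (fun u => E (tt y V u)) (Icc H (H + W)) := fun u hu =>
    (hE _).continuousAt.comp_continuousWithinAt (ctt u hu)
  have cE' : ContinuousOn (fun u => E' (tt y V u)) (Icc H (H + W)) := fun u hu =>
    (hE' _).continuousAt.comp_continuousWithinAt (ctt u hu)
  have cE'' : ContinuousOn (fun u => E'' (tt y V u)) (Icc H (H + W)) := hEc.comp_continuousOn ctt
  have cw : Continuous fun u : ℝ => om ((u - H) / W) := continuous_om.comp (by fun_prop)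
  have cw' : Continuous fun u : ℝ => om' ((u - H) / W) := by unfold om'; fun_prop
  have cw'' : Continuous fun u : ℝ => om'' ((u - H) / W) := continuous_om''.comp (by fun_prop)
  have cK'' : ContinuousOn (K'' E E' E'' V y H W) (Icc H (H + W)) := by
    unfold K''
    have h1 : ContinuousOn (fun u => V * (E'' (tt y V u) - E' (tt y V u)) / (u + y) ^ 2)
        (Icc H (H + W)) := ((cE''.sub cE').const_mul V).div (cid.pow 2) fun u hu => by
          have := hv0 u hu
          positivity
    have h2 : ContinuousOn (fun u => V * E' (tt y V u) / (u + y)) (Icc H (H + W)) :=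
      (cE'.const_mul V).div cid fun u hu => (hv0 u hu).ne'
    have h3 : ContinuousOn (fun u => V * E (tt y V u)) (Icc H (H + W)) := cE.const_mul V
    exact ((h1.mul cw.continuousOn).add (h2.mul (cw'.div_const W).continuousOn)).add
      ((h2.mul (cw'.div_const W).continuousOn).add (h3.mul (cw''.div_const (W ^ 2)).continuousOn))
  have dφ : ∀ u ∈ Icc H (H + W), HasDerivAt (fun u => Phi d η V (u + y))
      (d * tt y V u + η / (u + y)) u := fun u hu => hasDerivAt_Phi d η y V u hV0 (hv0 u hu)
  have dφ' : ∀ u ∈ Icc H (H + W), HasDerivAt (fun u => d * tt y V u + η / (u + y))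
      (d / (u + y) - η / (u + y) ^ 2) u := fun u hu => hasDerivAt_Phi' d η y V u hV0 (hv0 u hu)
  have cφ : ContinuousOn (fun u => Phi d η V (u + y)) (Icc H (H + W)) := fun u hu =>
    (dφ u hu).continuousAt.continuousWithinAt
  have cφ' : ContinuousOn (fun u => d * tt y V u + η / (u + y)) (Icc H (H + W)) := fun u hu =>
    (dφ' u hu).continuousAt.continuousWithinAt
  have cφ'' : ContinuousOn (fun u : ℝ => d / (u + y) - η / (u + y) ^ 2) (Icc H (H + W)) := by
    refine (continuousOn_const.div cid fun u hu => (hv0 u hu).ne').sub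
      (continuousOn_const.div (cid.pow 2) fun u hu => ?_)
    have := hv0 u hu
    positivity
  have lφ'' : ∀ u ∈ Icc H (H + W), d / (8 * T) ≤ d / (u + y) - η / (u + y) ^ 2 := by
    intro u hu
    have h1 := hv0 u hu
    obtain ⟨h2, h3⟩ := hv u hu
    have h4 : η / (u + y) ^ 2 ≤ d / (2 * (u + y)) := by
      rw [div_le_div_iff₀ (by positivity) (by positivity)]
      have h5 : η ≤ |η| := le_abs_self η
      have h6 : 2 * |η| ≤ d * (u + y) := by nlinarith
      calc η * (2 * (u + y)) ≤ |η| * (2 * (u + y)) := by gcongr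
        _ = (2 * |η|) * (u + y) := by ring
        _ ≤ (d * (u + y)) * (u + y) := by gcongr
        _ = d * (u + y) ^ 2 := by ring
    have h7 : d / (8 * T) ≤ d / (2 * (u + y)) := by
      apply div_le_div_of_nonneg_left hd.le (by positivity)
      linarith
    have h8 : d / (u + y) = d / (2 * (u + y)) + d / (2 * (u + y)) := by field_simp; norm_num
    linarith
  -- first integral
  have I1 := hwv H (H + W) (d / (8 * T)) 25600 (888832 / T) (fun u => Phi d η V (u + y)) _ _
    (fun u => ((K' E E' V y H W u : ℝ) : ℂ)) (fun u => ((K'' E E' E'' V y H W u : ℝ) : ℂ))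
    (by linarith) (by positivity) dφ dφ' cφ'' lφ'' (fun u hu => (dK' u hu).ofReal_comp)
    (Complex.continuous_ofReal.comp_continuousOn cK'')
    (fun u hu => by rw [Complex.norm_real]; exact bK' u hu)
    (fun u hu => by rw [Complex.norm_real]; exact bK'' u hu)
  -- second integral
  have I2 := hwv H (H + W) (d / (8 * T)) 1024 (53248 / T) (fun u => Phi d η V (u + y)) _ _
    (fun u => ((K E V y H W u / (u + y) : ℝ) : ℂ))
    (fun u => (((K' E E' V y H W u * (u + y) - K E V y H W u * 1) / (u + y) ^ 2 : ℝ) : ℂ))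
    (by linarith) (by positivity) dφ dφ' cφ'' lφ''
    (fun u hu => ((dK u hu).div ((hasDerivAt_id u).add_const y) (hv0 u hu).ne').ofReal_comp)
    (Complex.continuous_ofReal.comp_continuousOn
      (((cK'.mul cid).sub (cK.mul continuousOn_const)).div (cid.pow 2) fun u hu => by
        have := hv0 u hu
        positivity))
    (fun u hu => by
      have h1 := hv0 u hu
      rw [Complex.norm_real, Real.norm_eq_abs, abs_div, abs_of_pos h1, div_le_iff₀ h1]
      linarith [bK u hu, (hv u hu).1])
    (fun u hu => by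
      have h1 := hv0 u hu
      have h2 := (hv u hu).1
      rw [Complex.norm_real, Real.norm_eq_abs]
      have h3 : (K' E E' V y H W u * (u + y) - K E V y H W u * 1) / (u + y) ^ 2 =
          K' E E' V y H W u / (u + y) - K E V y H W u / (u + y) ^ 2 := by field_simp
      rw [h3]
      refine (abs_sub _ _).trans ?_
      rw [abs_div, abs_div, abs_of_pos h1, abs_of_pos (by positivity : (0 : ℝ) < (u + y) ^ 2)]
      have h4 : |K' E E' V y H W u| / (u + y) ≤ 25600 / (T / 2) := by
        gcongr
        exact bK' u hu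
      have h5 : |K E V y H W u| / (u + y) ^ 2 ≤ 512 * T / (T / 2) ^ 2 := by
        gcongr
        exact bK u hu
      have h6 : 25600 / (T / 2) + 512 * T / (T / 2) ^ 2 = 53248 / T := by field_simp; norm_num
      linarith)
  -- integration by parts
  have hii : ∀ f : ℝ → ℂ, ContinuousOn f (Icc H (H + W)) →
      IntervalIntegrable f volume H (H + W) := fun f hf =>
    ContinuousOn.intervalIntegrable (by rwa [uIcc_of_le (by linarith)])
  have ce : ContinuousOn (fun u => cexp ((Phi d η V (u + y) : ℝ) * I)) (Icc H (H + W)) :=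
    Complex.continuous_exp.comp_continuousOn
      ((Complex.continuous_ofReal.comp_continuousOn cφ).mul continuousOn_const)
  have ibp : ∫ u in H..(H + W), (((K' E E' V y H W u : ℝ) : ℂ) *
      cexp ((Phi d η V (u + y) : ℝ) * I) + ((K E V y H W u : ℝ) : ℂ) *
      (cexp ((Phi d η V (u + y) : ℝ) * I) *
        (((d * tt y V u + η / (u + y) : ℝ) : ℂ) * I))) = 0 := by
    rw [intervalIntegral.integral_eq_sub_of_hasDerivAt (f := fun u => ((K E V y H W u : ℝ) : ℂ) *
      cexp ((Phi d η V (u + y) : ℝ) * I))]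
    · have h1 : K E V y H W (H + W) = 0 := by
        unfold K
        rw [add_sub_cancel_left, div_self hW0.ne', om_one, mul_zero]
      have h2 : K E V y H W H = 0 := by
        unfold K
        rw [sub_self, zero_div, om_zero, mul_zero]
      simp only [h1, h2]
      simp
    · intro u hu
      rw [uIcc_of_le (by linarith)] at hu
      have h1 := (dK u hu).ofReal_comp
      have h2 := (((dφ u hu).ofReal_comp).mul_const I).cexp
      exact h1.mul h2
    · refine hii _ (ContinuousOn.add ?_ ?_)
      · exact (Complex.continuous_ofReal.comp_continuousOn cK').mul ce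
      · exact (Complex.continuous_ofReal.comp_continuousOn cK).mul
          (ce.mul ((Complex.continuous_ofReal.comp_continuousOn cφ').mul continuousOn_const))
  have split : ∀ u ∈ Icc H (H + W), ((u + y - V : ℝ) : ℂ) * ((om ((u - H) / W) : ℂ) *
      cexp ((Phi d η V (u + y) : ℝ) * I)) = (-I / d) * (((K' E E' V y H W u : ℝ) : ℂ) *
      cexp ((Phi d η V (u + y) : ℝ) * I) + ((K E V y H W u : ℝ) : ℂ) *
      (cexp ((Phi d η V (u + y) : ℝ) * I) *
        (((d * tt y V u + η / (u + y) : ℝ) : ℂ) * I))) + (I / d) * (((K' E E' V y H W u : ℝ) : ℂ) *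
      cexp ((Phi d η V (u + y) : ℝ) * I)) - (η / d) * (((K E V y H W u / (u + y) : ℝ) : ℂ) *
      cexp ((Phi d η V (u + y) : ℝ) * I)) := by
    intro u hu
    have h1 := hv0 u hu
    have h2 : (u + y - V) = V * E (tt y V u) * tt y V u := by
      have h3 := hEE (tt y V u)
      have h4 : Real.exp (tt y V u) = (u + y) / V := by
        unfold tt
        rw [Real.exp_log (by positivity)]
      rw [h4] at h3
      calc u + y - V = V * ((u + y) / V - 1) := by field_simp
        _ = V * (tt y V u * E (tt y V u)) := by rw [h3]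
        _ = _ := by ring
    have h5 : (u + y - V) * om ((u - H) / W) = K E V y H W u * tt y V u := by
      rw [h2]
      unfold K
      ring
    have h6 : ((u + y - V : ℝ) : ℂ) * ((om ((u - H) / W) : ℂ) *
      cexp ((Phi d η V (u + y) : ℝ) * I)) = ((K E V y H W u : ℝ) : ℂ) * ((tt y V u : ℝ) : ℂ) *
      cexp ((Phi d η V (u + y) : ℝ) * I) := by
      rw [← mul_assoc, ← Complex.ofReal_mul, h5, Complex.ofReal_mul]
    rw [h6]
    have hdc : (d : ℂ) ≠ 0 := by exact_mod_cast hd.ne'
    have hvc : ((u : ℂ) + y) ≠ 0 := by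
      rw [← Complex.ofReal_add]
      exact_mod_cast h1.ne'
    push_cast
    field_simp
    ring_nf
    simp only [I_sq]
    ring
  have hint : ∫ u in H..(H + W), ((u + y - V : ℝ) : ℂ) * ((om ((u - H) / W) : ℂ) *
      cexp ((Phi d η V (u + y) : ℝ) * I)) =
      (I / d) * (∫ u in H..(H + W), ((K' E E' V y H W u : ℝ) : ℂ) *
      cexp ((Phi d η V (u + y) : ℝ) * I)) -
      (η / d) * ∫ u in H..(H + W), ((K E V y H W u / (u + y) : ℝ) : ℂ) *
      cexp ((Phi d η V (u + y) : ℝ) * I) := by
    have i1 : IntervalIntegrable (fun u => ((K' E E' V y H W u : ℝ) : ℂ) *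
      cexp ((Phi d η V (u + y) : ℝ) * I)) volume H (H + W) :=
      hii _ ((Complex.continuous_ofReal.comp_continuousOn cK').mul ce)
    have i2 : IntervalIntegrable (fun u => ((K E V y H W u / (u + y) : ℝ) : ℂ) *
      cexp ((Phi d η V (u + y) : ℝ) * I)) volume H (H + W) :=
      hii _ ((Complex.continuous_ofReal.comp_continuousOn
        (cK.div cid fun u hu => (hv0 u hu).ne')).mul ce)
    have i3 : IntervalIntegrable (fun u => ((K' E E' V y H W u : ℝ) : ℂ) *
      cexp ((Phi d η V (u + y) : ℝ) * I) + ((K E V y H W u : ℝ) : ℂ) *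
      (cexp ((Phi d η V (u + y) : ℝ) * I) *
        (((d * tt y V u + η / (u + y) : ℝ) : ℂ) * I))) volume H (H + W) :=
      hii _ (ContinuousOn.add ((Complex.continuous_ofReal.comp_continuousOn cK').mul ce)
        ((Complex.continuous_ofReal.comp_continuousOn cK).mul
          (ce.mul ((Complex.continuous_ofReal.comp_continuousOn cφ').mul continuousOn_const))))
    rw [intervalIntegral.integral_congr (g := fun u => (-I / d) * (((K' E E' V y H W u : ℝ) : ℂ) *
      cexp ((Phi d η V (u + y) : ℝ) * I) + ((K E V y H W u : ℝ) : ℂ) *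
      (cexp ((Phi d η V (u + y) : ℝ) * I) *
        (((d * tt y V u + η / (u + y) : ℝ) : ℂ) * I))) + (I / d) * (((K' E E' V y H W u : ℝ) : ℂ) *
      cexp ((Phi d η V (u + y) : ℝ) * I)) - (η / d) * (((K E V y H W u / (u + y) : ℝ) : ℂ) *
      cexp ((Phi d η V (u + y) : ℝ) * I))) (fun u hu => by
        rw [uIcc_of_le (by linarith)] at hu
        exact split u hu),
      intervalIntegral.integral_sub ((i3.const_mul _).add (i1.const_mul _)) (i2.const_mul _),
      intervalIntegral.integral_add (i3.const_mul _) (i1.const_mul _),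
      intervalIntegral.integral_const_mul, intervalIntegral.integral_const_mul,
      intervalIntegral.integral_const_mul, ibp, mul_zero, zero_add]
  rw [hint]
  refine (norm_sub_le _ _).trans ?_
  rw [norm_mul, norm_mul, norm_div, norm_div, Complex.norm_I, Complex.norm_real, Complex.norm_real,
    Real.norm_of_nonneg hd.le, Real.norm_eq_abs]
  have hWT : W ≤ T := by linarith
  have hb : H + W - H = W := by ring
  rw [hb] at I1 I2
  have hq : 0 ≤ 8 / Real.sqrt (d / (8 * T)) := by positivity
  have J1 : 25600 + 888832 / T * W ≤ 1000000 := by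
    have : 888832 / T * W ≤ 888832 / T * T := by gcongr
    rw [div_mul_cancel₀ _ hT0.ne'] at this
    linarith
  have J2 : 1024 + 53248 / T * W ≤ 1000000 := by
    have : 53248 / T * W ≤ 53248 / T * T := by gcongr
    rw [div_mul_cancel₀ _ hT0.ne'] at this
    linarith
  have K1 := I1.trans (mul_le_mul_of_nonneg_right J1 hq)
  have K2 := I2.trans (mul_le_mul_of_nonneg_right J2 hq)
  calc _ ≤ 1 / d * (1000000 * (8 / Real.sqrt (d / (8 * T)))) +
        |η| / d * (1000000 * (8 / Real.sqrt (d / (8 * T)))) := by gcongr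
    _ = 1000000 * (1 + |η|) / d * (8 / Real.sqrt (d / (8 * T))) := by ring

end core

lemma hasDerivAt_Phi_V (d η v V : ℝ) (hV : 0 < V) (hv : 0 < v) :
    HasDerivAt (fun V => Phi d η V v) (d * (1 - v / V)) V := by
  have h1 : HasDerivAt (fun V : ℝ => v / V) (-v / V ^ 2) V := by
    have := (hasDerivAt_const V v).div (hasDerivAt_id V) hV.ne'
    refine this.congr_deriv ?_
    simp
  have h2 := h1.log (by positivity)
  have h3 := ((((h2.const_mul v).sub_const v).add (hasDerivAt_id V)).const_mul d).add_const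
    (η * Real.log v)
  refine h3.congr_deriv ?_
  field_simp
  ring

lemma hasDerivAt_J (d η T H W y V : ℝ) (hd : 0 < d) (hT : 1 ≤ T) (hH : T ≤ H)
    (hW : T / 4 ≤ W) (hHW : H + W ≤ 2 * T) (hy : |y| ≤ T / 2) (hV1 : T / 8 ≤ V) :
    HasDerivAt (fun V => ∫ u in H..(H + W), (om ((u - H) / W) : ℂ) *
        cexp ((Phi d η V (u + y) : ℝ) * I))
      (∫ u in H..(H + W), (om ((u - H) / W) : ℂ) * (cexp ((Phi d η V (u + y) : ℝ) * I) *
        (((d * (1 - (u + y) / V) : ℝ) : ℂ) * I))) V := by
  have hT0 : 0 < T := by linarith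
  have hW0 : 0 < W := by linarith
  have hV0 : 0 < V := by linarith
  obtain ⟨hy1, hy2⟩ := abs_le.1 hy
  have hm : ∀ V : ℝ, Measurable fun u : ℝ => cexp ((Phi d η V (u + y) : ℝ) * I) := by
    intro V
    unfold Phi
    fun_prop
  have hom : Measurable fun u : ℝ => ((om ((u - H) / W) : ℝ) : ℂ) :=
    (Complex.continuous_ofReal.comp (continuous_om.comp (by fun_prop))).measurable
  have hb : ∀ u ∈ uIoc H (H + W), ‖(om ((u - H) / W) : ℂ)‖ ≤ 1 := by
    intro u hu
    rw [uIoc_of_le (by linarith)] at hu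
    rw [Complex.norm_real]
    refine abs_om_le ?_ ?_
    · exact div_nonneg (by linarith [hu.1]) hW0.le
    · rw [div_le_one hW0]
      linarith [hu.2]
  refine (intervalIntegral.hasDerivAt_integral_of_dominated_loc_of_deriv_le
    (F := fun V u => (om ((u - H) / W) : ℂ) * cexp ((Phi d η V (u + y) : ℝ) * I))
    (F' := fun V u => (om ((u - H) / W) : ℂ) * (cexp ((Phi d η V (u + y) : ℝ) * I) *
        (((d * (1 - (u + y) / V) : ℝ) : ℂ) * I))) (s := Icc (V / 2) (2 * V))
    (bound := fun _ => 65 * d) (Icc_mem_nhds (by linarith) (by linarith)) ?_ ?_ ?_ ?_ ?_ ?_).2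
  · exact Eventually.of_forall fun V => (hom.mul (hm V)).aestronglyMeasurable
  · rw [intervalIntegrable_iff, uIoc_of_le (by linarith)]
    refine Integrable.mono' (g := fun _ => (1 : ℝ)) (integrable_const _)
      (hom.mul (hm V)).aestronglyMeasurable ?_
    filter_upwards [ae_restrict_mem measurableSet_Ioc] with u hu
    rw [norm_mul, Complex.norm_exp_ofReal_mul_I, mul_one]
    exact hb u (by rwa [uIoc_of_le (by linarith)])
  · refine (hom.mul ((hm V).mul ?_)).aestronglyMeasurable
    exact Continuous.measurable (by fun_prop)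
  · refine Eventually.of_forall fun u hu x hx => ?_
    have hx0 : 0 < x := by linarith [hx.1]
    have h1 := hb u hu
    rw [uIoc_of_le (by linarith)] at hu
    have hv : 0 < u + y := by linarith [hu.1]
    rw [norm_mul, norm_mul, norm_mul, Complex.norm_exp_ofReal_mul_I, Complex.norm_I, mul_one,
      one_mul, Complex.norm_real (d * (1 - (u + y) / x)), Real.norm_eq_abs, abs_mul, abs_of_pos hd]
    have h2 : |1 - (u + y) / x| ≤ 65 := by
      have h3 : (u + y) / x ≤ 64 := by
        rw [div_le_iff₀ hx0]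
        linarith [hu.2, hx.1]
      have h4 : 0 < (u + y) / x := by positivity
      rw [abs_le]
      constructor <;> linarith
    calc ‖(om ((u - H) / W) : ℂ)‖ * (d * |1 - (u + y) / x|) ≤ 1 * (d * 65) := by gcongr
      _ = 65 * d := by ring
  · exact intervalIntegrable_const
  · refine Eventually.of_forall fun u hu x hx => ?_
    have hx0 : 0 < x := by linarith [hx.1]
    rw [uIoc_of_le (by linarith)] at hu
    have hv : 0 < u + y := by linarith [hu.1]
    exact ((((hasDerivAt_Phi_V d η (u + y) x hx0 hv).ofReal_comp).mul_const I).cexp).const_mul _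

theorem jl (h1 : T_WV) (h2 : T_EE) : T_JL := by
  intro d B η hd
  obtain ⟨E, E', E'', hE, hE', hEc, hEE, hEb⟩ := h2
  refine ⟨64 * 1000000 * (1 + |η|) * Real.sqrt (8 / d), max 1 (4 * |η| / d), by positivity, ?_⟩
  intro T hT H W y V₁ V₂ hH hW hHW hy h11 h12 h21 h22
  have hT1 : 1 ≤ T := (le_max_left _ _).trans hT
  have hT0 : 0 < T := by linarith
  have hη : 4 * |η| ≤ d * T := by
    have := (le_max_right 1 (4 * |η| / d)).trans hT
    rw [div_le_iff₀ hd] at this
    linarith
  have hy2 : |y| ≤ T / 2 := by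
    refine hy.trans ?_
    have h3 := Real.log_le_sub_one_of_pos (by positivity : (0 : ℝ) < T / 2)
    rw [Real.log_div hT0.ne' two_ne_zero] at h3
    have h4 := Real.log_two_lt_d9
    linarith
  obtain ⟨hy3, hy4⟩ := abs_le.1 hy2
  have hWT : W ≤ T := by linarith
  set J : ℝ → ℂ := fun V => ∫ u in H..(H + W), (om ((u - H) / W) : ℂ) *
    cexp ((Phi d η V (u + y) : ℝ) * I) with hJ
  rw [J_eq d B η H W y V₁ (by linarith) (by linarith) (by linarith),
    J_eq d B η H W y V₂ (by linarith) (by linarith) (by linarith)]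
  change ‖J V₁ - J V₂‖ ≤ _
  have hder : ∀ V ∈ Icc (T / 8) (16 * T), HasDerivWithinAt J
      (∫ u in H..(H + W), (om ((u - H) / W) : ℂ) * (cexp ((Phi d η V (u + y) : ℝ) * I) *
        (((d * (1 - (u + y) / V) : ℝ) : ℂ) * I))) (Icc (T / 8) (16 * T)) V := fun V hV =>
    (hasDerivAt_J d η T H W y V hd hT1 hH hW hHW hy2 hV.1).hasDerivWithinAt
  have hbd : ∀ V ∈ Icc (T / 8) (16 * T), ‖∫ u in H..(H + W), (om ((u - H) / W) : ℂ) *
      (cexp ((Phi d η V (u + y) : ℝ) * I) * (((d * (1 - (u + y) / V) : ℝ) : ℂ) * I))‖ ≤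
      64 * 1000000 * (1 + |η|) * Real.sqrt (8 / d) / Real.sqrt T := by
    intro V hV
    have hV0 : 0 < V := by linarith [hV.1]
    have h3 : ∫ u in H..(H + W), (om ((u - H) / W) : ℂ) *
        (cexp ((Phi d η V (u + y) : ℝ) * I) * (((d * (1 - (u + y) / V) : ℝ) : ℂ) * I)) =
        (-(d / V) * I) * ∫ u in H..(H + W), ((u + y - V : ℝ) : ℂ) * ((om ((u - H) / W) : ℂ) *
      cexp ((Phi d η V (u + y) : ℝ) * I)) := by
      rw [← intervalIntegral.integral_const_mul]
      refine intervalIntegral.integral_congr fun u _ => ?_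
      have hVc : (V : ℂ) ≠ 0 := by exact_mod_cast hV0.ne'
      push_cast
      field_simp
      ring
    rw [h3, norm_mul]
    have h4 := core E E' E'' hE hE' hEc hEE hEb h1 d η T H W y V hd hT1 hH hW hHW hy2 hη hV.1 hV.2
    have h5 : ‖(-((d : ℂ) / V) * I)‖ = d / V := by
      rw [norm_mul, norm_neg, norm_div, Complex.norm_I, mul_one, Complex.norm_real,
        Complex.norm_real, Real.norm_of_nonneg hd.le, Real.norm_of_nonneg hV0.le]
    rw [h5]
    have h6 : 8 / Real.sqrt (d / (8 * T)) = 8 * Real.sqrt (8 / d) * Real.sqrt T := by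
      have h7 : d / (8 * T) = ((8 / d) * T)⁻¹ := by field_simp
      rw [h7, Real.sqrt_inv, Real.sqrt_mul (by positivity)]
      field_simp
    rw [h6] at h4
    have h8 : d / V ≤ d / (T / 8) := by
      gcongr
      exact hV.1
    have hs : Real.sqrt T * Real.sqrt T = T := Real.mul_self_sqrt hT0.le
    have hs0 : 0 < Real.sqrt T := Real.sqrt_pos.2 hT0
    calc d / V * _ ≤ d / (T / 8) * (1000000 * (1 + |η|) / d *
          (8 * Real.sqrt (8 / d) * Real.sqrt T)) := by gcongr
      _ = 64 * 1000000 * (1 + |η|) * Real.sqrt (8 / d) * (Real.sqrt T / T) := by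
          field_simp
          ring
      _ = 64 * 1000000 * (1 + |η|) * Real.sqrt (8 / d) / Real.sqrt T := by
          have : Real.sqrt T / T = 1 / Real.sqrt T := by
            rw [div_eq_div_iff hT0.ne' hs0.ne', hs, one_mul]
          rw [this]
          ring
  have h9 := (convex_Icc (T / 8) (16 * T)).norm_image_sub_le_of_norm_hasDerivWithin_le hder hbd
    (show V₂ ∈ Icc (T / 8) (16 * T) from ⟨h21, h22⟩)
    (show V₁ ∈ Icc (T / 8) (16 * T) from ⟨h11, h12⟩)
  refine h9.trans (le_of_eq ?_)
  rw [Real.norm_eq_abs]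
  ring

end Pool.Agent.H17.DP.JL

theorem Pool.Agent.H17.DP.jl (h1 : Pool.Agent.H25.DP.T_WV) (h2 : Pool.Agent.H25.DP.T_EE) :
    Pool.Agent.H25.DP.T_JL := Pool.Agent.H17.DP.JL.jl h1 h2
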